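import Pool.Agent.Helper48.DGM.Lf
import Pool.Agent.Helper89.MG.Cms

/-! THEOREM DEGREE for systems of leaves `MSys`: over a canonical form of degree `D` of a window `c` the point is not
contained in a polynomial leaf of dimension `d < M` (of any degree) beyond the thickness of the form. -/

set_option autoImplicit false

namespace Pool.Agent.Helper48.DGM

open Finset Filter Topology Matrix Pool.Agent.Helper69.RK Pool.Agent.Helper31.EC Pool.Agent.Helper40.EL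
open Pool.Agent.Helper89.LX Pool.Agent.Helper3.LF Pool.Agent.Helper84.MT Pool.Agent.Helper59.LF
open Pool.Agent.Helper48.NS (Ov GdC CL cc fex ucell card_mon_le card_mon_ge)
open Pool.Agent.Helper95.LF (PdM)

noncomputable section

/-- the number of conditions is smaller than the number of coefficients, linear Remez exponents -/
theorem card_lin (g d M D : ℕ) (hd : d < M) (h : M * ((d * g + 1) * M) ^ d ≤ D) :
    Fintype.card (Mon d (d * Pool.Agent.Helper84.MT.lin g D)) < Fintype.card (Mon M D) := by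
  have hM : 0 < M := by omega
  set q := D / M + 1 with hq
  have h1 : D + 1 ≤ M * q := by
    have := Nat.lt_mul_div_succ D hM
    have h2 : D < M * q := this
    omega
  have h2 : ((d * g + 1) * M) ^ d < q := by
    have h3 : ((d * g + 1) * M) ^ d ≤ D / M := by
      rw [Nat.le_div_iff_mul_le hM, mul_comm]
      exact h
    omega
  have h3 : d * Pool.Agent.Helper84.MT.lin g D + 1 ≤ ((d * g + 1) * M) * q := by
    have e1 : d * Pool.Agent.Helper84.MT.lin g D + 1 ≤ (d * g + 1) * (D + 1) := by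
      unfold Pool.Agent.Helper84.MT.lin
      have : (d * g + 1) * (D + 1) = d * (g * (D + 1)) + (D + 1) := by ring
      omega
    refine e1.trans ?_
    rw [mul_assoc]
    exact Nat.mul_le_mul_left _ h1
  have hq1 : 1 ≤ q := by omega
  calc Fintype.card (Mon d (d * Pool.Agent.Helper84.MT.lin g D)) ≤ (d * Pool.Agent.Helper84.MT.lin g D + 1) ^ d := card_mon_le _ _
    _ ≤ (((d * g + 1) * M) * q) ^ d := Nat.pow_le_pow_left h3 _
    _ = ((d * g + 1) * M) ^ d * q ^ d := Nat.mul_pow _ _ _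
    _ < q * q ^ d := Nat.mul_lt_mul_of_pos_right h2 (by positivity)
    _ = q ^ (d + 1) := by rw [pow_succ, mul_comm]
    _ ≤ q ^ M := Nat.pow_le_pow_right hq1 hd
    _ ≤ Fintype.card (Mon M D) := card_mon_ge M D

/-- for every dimension `d < M` and every complexity `g` the theorem applies to all large degrees -/
theorem exists_card (g d M : ℕ) (hd : d < M) : ∃ D₁ : ℕ, 1 ≤ D₁ ∧ ∀ D, D₁ ≤ D →
    Fintype.card (Mon d (d * Pool.Agent.Helper84.MT.lin g D)) < Fintype.card (Mon M D) :=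
  ⟨max 1 (M * ((d * g + 1) * M) ^ d), le_max_left _ _, fun D hD => card_lin g d M D hd ((le_max_right _ _).trans hD)⟩

variable {S : Sp} {M D d : ℕ} {E : ℕ → ℕ} {ι : Type}

/-- THE INPUT for canonical forms of systems of leaves -/
theorem inp_msys [Finite ι] (s : MSys S M E ι) (hED : 1 ≤ E D) {c : ℝ} (h0 : 0 ≤ c) (h1 : c < 1)
    {x : ∀ k, FD (S.F k) (Mon M D)} (hx : s.IsCan D c x) : Inp s.Q x (E D) (E D * (1 - c)) where
  cpd := by
    filter_upwards [hx.1.1 1 one_pos] with k hk ω hω using (hk.2.1 ω hω).1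
  bdg := fun η hη => by
    filter_upwards [hx.1.1 η hη] with k hk using hk.2.2.1
  cost := fun E₀ hE0 hE1 y hy hU => cost_msys s hED h0 h1 E₀ hE0 hE1 hx y hy hU

theorem le_price {E : ℕ} (hED : 1 ≤ E) {c E₀ : ℝ} (h1 : c < 1) (h : E₀ ≤ 1 - c) : E₀ ≤ (E : ℝ) * (1 - c) := by
  have : (1 : ℝ) ≤ E := by exact_mod_cast hED
  nlinarith

/-- THEOREM DEGREE for `MSys`: quantitative form -/
theorem degree_leaf_msys [Finite ι] (s : MSys S M E ι) (hD : 1 ≤ D) (hED : 1 ≤ E D)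
    (hcard : Fintype.card (Mon d (d * E D)) < Fintype.card (Mon M D)) {c : ℝ} (h0 : 0 ≤ c) (h1 : c < 1)
    {x : ∀ k, FD (S.F k) (Mon M D)} (hx : s.IsCan D c x) (σ E₀ e : ℝ)
    (hsg : ∀ δ : ℝ, 0 < δ → Tendsto (fun k => (x k).l.T.pb (fun ω =>
      ¬ gam (S.dl 1 k) ((x k).g ω) (s.Q.v k ((x k).l.p.π ω)) ≤ 2 ^ (2 * (σ + δ) * (S.F k).n))) UF (𝓝 0))
    (hE : 0 < E₀) (hE1 : E₀ ≤ E D * (1 - c)) (hσE : σ + E₀ ≤ 1) (he0 : 0 < e) (K : ℕ) (hK : 1 ≤ K)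
    (he : ((d * E D + 1 : ℕ) : ℝ) * (E D + 2) * ((d * ((D * K : ℕ) : ℝ) + 3) * (2 * e)) < 1)
    (l : ∀ k, FLab ((Ov x).F k)) (hU : UB (fun k => (l k).info / (S.F k).n))
    (hl : ul (fun k => (l k).info / (S.F k).n) ≤ e * E₀) (X : ∀ k, (l k).T.Ω → Fin d → ℝ)
    (Φ : ∀ k, (l k).T.Ω → Fin M → MvPolynomial (Fin d) ℝ) (hΦd : ∀ k ω i, (Φ k ω i).totalDegree ≤ K)
    (hΦ : ∀ k ω ω', (l k).T.μ ω ≠ 0 → (l k).T.μ ω' ≠ 0 → (l k).V ω ω' → (l k).T.Z ω ω' → Φ k ω = Φ k ω')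
    (hev : ∀ᶠ k in UF, (l k).T.pb (fun ω => ¬ LeafP s.Q x k (l k) σ E₀ e (X k) (Φ k) ω) ≤ e)
    (hful : ∀ᶠ k in UF, (d * (E₀ / ((d * E D + 1 : ℕ) : ℝ)) - e ^ 2 * E₀) * (S.F k).n ≤
      (l k).T.e (Setoid.ker (fun ω => ucell (2 ^ (-(E₀ / ((d * E D + 1 : ℕ) : ℝ) * (S.F k).n))) (X k ω)))
        ((l k).V ⊓ (l k).T.Z)) : False :=
  degree_leaf hED hD hcard (inp_msys s hED h0 h1 hx) hx.1 σ E₀ e hsg hE hE1 hσE he0 K hK he l hU hl X Φ hΦd hΦ
    hev hful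

/-- THEOREM DEGREE for `MSys`, in the gauge of the form: the leaf is a leaf of monomial vectors -/
theorem degree_gauge_msys [Finite ι] (s : MSys S M E ι) (hED : 1 ≤ E D)
    (hcard : Fintype.card (Mon d (d * E D)) < Fintype.card (Mon M D)) {c : ℝ} (h0 : 0 ≤ c) (h1 : c < 1)
    {x : ∀ k, FD (S.F k) (Mon M D)} (hx : s.IsCan D c x) (E₀ e : ℝ) (hE : 0 < E₀) (hE1 : E₀ ≤ E D * (1 - c))
    (he0 : 0 < e) (Kd : ℕ) (hKd : 1 ≤ Kd)
    (he : ((d * E D + 1 : ℕ) : ℝ) * (E D + 2) * ((d * Kd + 3) * e) < 1)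
    (l : ∀ k, FLab ((Ov x).F k)) (hU : UB (fun k => (l k).info / (S.F k).n))
    (hl : ul (fun k => (l k).info / (S.F k).n) ≤ e * E₀) (X : ∀ k, (l k).T.Ω → Fin d → ℝ)
    (Q : ∀ k, (l k).T.Ω → Mon M D → MvPolynomial (Fin d) ℝ) (hQd : ∀ k ω a, (Q k ω a).totalDegree ≤ Kd)
    (hQ : ∀ k ω ω', (l k).T.μ ω ≠ 0 → (l k).T.μ ω' ≠ 0 → (l k).V ω ω' → (l k).T.Z ω ω' → Q k ω = Q k ω')
    (hev : ∀ᶠ k in UF, (l k).T.pb (fun ω => ¬ LeafG0 s.Q x k (l k) E₀ e (X k) (Q k) ω) ≤ e)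
    (hful : ∀ᶠ k in UF, (d * (E₀ / ((d * E D + 1 : ℕ) : ℝ)) - e ^ 2 * E₀) * (S.F k).n ≤
      (l k).T.e (Setoid.ker (fun ω => ucell (2 ^ (-(E₀ / ((d * E D + 1 : ℕ) : ℝ) * (S.F k).n))) (X k ω)))
        ((l k).V ⊓ (l k).T.Z)) : False :=
  degree_full s.Q hED hcard (inp_msys s hED h0 h1 hx) E₀ e hE hE1 he0 Kd hKd he l hU hl X Q hQd hQ hev hful

/-- THEOREM DEGREE for `MSys`, limit form: a label of information `o(n)` over the canonical form does not know a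
polynomial leaf of dimension `d < M` which contains the point beyond the thickness `σ` -/
theorem no_leaf_msys [Finite ι] (s : MSys S M E ι) (hD : 1 ≤ D) (hED : 1 ≤ E D)
    (hcard : Fintype.card (Mon d (d * E D)) < Fintype.card (Mon M D)) {c : ℝ} (h0 : 0 ≤ c) (h1 : c < 1)
    {x : ∀ k, FD (S.F k) (Mon M D)} (hx : s.IsCan D c x) (σ E₀ : ℝ)
    (hsg : ∀ δ : ℝ, 0 < δ → Tendsto (fun k => (x k).l.T.pb (fun ω =>
      ¬ gam (S.dl 1 k) ((x k).g ω) (s.Q.v k ((x k).l.p.π ω)) ≤ 2 ^ (2 * (σ + δ) * (S.F k).n))) UF (𝓝 0))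
    (hE : 0 < E₀) (hE1 : E₀ ≤ E D * (1 - c)) (hσE : σ + E₀ ≤ 1) (K : ℕ) (hK : 1 ≤ K)
    (l : ∀ k, FLab ((Ov x).F k)) (hl : Tendsto (fun k => (l k).info / (S.F k).n) UF (𝓝 0))
    (X : ∀ k, (l k).T.Ω → Fin d → ℝ)
    (Φ : ∀ k, (l k).T.Ω → Fin M → MvPolynomial (Fin d) ℝ) (hΦd : ∀ k ω i, (Φ k ω i).totalDegree ≤ K)
    (hΦ : ∀ k ω ω', (l k).T.μ ω ≠ 0 → (l k).T.μ ω' ≠ 0 → (l k).V ω ω' → (l k).T.Z ω ω' → Φ k ω = Φ k ω')
    (hev : ∀ e : ℝ, 0 < e → ∀ᶠ k in UF, (l k).T.pb (fun ω => ¬ LeafP s.Q x k (l k) σ E₀ e (X k) (Φ k) ω) ≤ e)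
    (hful : ∀ e : ℝ, 0 < e → ∀ᶠ k in UF, (d * (E₀ / ((d * E D + 1 : ℕ) : ℝ)) - e) * (S.F k).n ≤
      (l k).T.e (Setoid.ker (fun ω => ucell (2 ^ (-(E₀ / ((d * E D + 1 : ℕ) : ℝ) * (S.F k).n))) (X k ω)))
        ((l k).V ⊓ (l k).T.Z)) : False := by
  set C : ℝ := ((d * E D + 1 : ℕ) : ℝ) * (E D + 2) * ((d * ((D * K : ℕ) : ℝ) + 3) * 2) with hC
  have hC0 : 0 < C := by positivity
  set e : ℝ := 1 / (2 * C) with he
  have he0 : 0 < e := by positivity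
  refine degree_leaf_msys s hD hED hcard h0 h1 hx σ E₀ e hsg hE hE1 hσE he0 K hK ?_ l (UB_of_tendsto hl) ?_ X Φ hΦd hΦ
    (hev e he0) ?_
  · have e1 : ((d * E D + 1 : ℕ) : ℝ) * (E D + 2) * ((d * ((D * K : ℕ) : ℝ) + 3) * (2 * e)) = C * e := by
      rw [hC]
      ring
    rw [e1, he]
    have e2 : C * (1 / (2 * C)) = 1 / 2 := by field_simp
    rw [e2]
    norm_num
  · rw [ul_eq hl]
    positivity
  · exact hful (e ^ 2 * E₀) (by positivity)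

end

end Pool.Agent.Helper48.DGM
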