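import Pool.Agent.Helper48.DGM.Ful
import Pool.Agent.Helper48.NS.Dlf

/-! THEOREM DEGREE for leaves in `R ^ M`: the point is close to a polynomial leaf in the Euclidean distance, the depth is
counted from the thickness of the canonical form. -/

set_option autoImplicit false

namespace Pool.Agent.Helper48.DGM

open Finset Filter Topology Matrix Pool.Agent.Helper69.RK Pool.Agent.Helper31.EC Pool.Agent.Helper40.EL
open Pool.Agent.Helper89.LX Pool.Agent.Helper3.LF Pool.Agent.Helper84.MT Pool.Agent.Helper59.LF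
open Pool.Agent.Helper48.NS hiding deg_vec deg_sub degree leaf_pt leaf_cube degree_full derFD der_phi der_dom Qmon Qmon_eval Qmon_deg LeafP pt_close leafP_leaf0 degree_leaf
open Pool.Agent.Helper95.LF (PdM)

noncomputable section

variable {S : Sp} {M D d : ℕ} (P : S.VV M)

/-- the derivatives as second form -/
def derFD {F : FSp} (lam c : ℝ) (x : FD F (Mon M D)) : FD F (Mon M D) where
  l := x.l
  g := x.g
  g' := fun ω => capd c (DA lam (x.g ω))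
  meas := fun ω ω' a b c' d => ⟨(x.meas ω ω' a b c' d).1, by rw [(x.meas ω ω' a b c' d).1]⟩

variable {P}

/-- the gauge of the derivatives of an admissible form -/
theorem der_phi {A : Matrix (Mon M D) (Mon M D) ℝ} {lam c : ℝ} (hl : 0 ≤ lam)
    (hA : ∀ v, 0 ≤ qf A v) (k : ℕ) (ω : (S.F k).Ω) :
    (gaq P D).φ k ω (capd c (DA lam A)) ≤ (gaq P D).φ k ω 1 + lam * gam (S.dl 1 k) A (P.v k ω) := by
  have h0 : 0 ≤ gam (S.dl 1 k) A (P.v k ω) := gam_nonneg _ hA _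
  unfold capd
  split_ifs
  · exact (DA_phi lam A _ _).le
  · have := mul_nonneg hl h0
    linarith

/-- an optimal form dominates its derivatives at the scale of its thickness -/
theorem der_dom {κ : Type} {A : κ → Part S} {x : ∀ k, FD (S.F k) (Mon M D)} (hx : (gaq P D).Optf A x) (σ : ℝ)
    (hsg : ∀ δ : ℝ, 0 < δ → Tendsto (fun k => (x k).l.T.pb (fun ω =>
      ¬ gam (S.dl 1 k) ((x k).g ω) (P.v k ((x k).l.p.π ω)) ≤ 2 ^ (2 * (σ + δ) * (S.F k).n))) UF (𝓝 0)) (e : ℝ) (he : 0 < e) :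
    Tendsto (fun k => (x k).l.T.pb (fun ω => ¬ ∀ (i : Fin M) (v : Mon M D → ℝ),
      qf ((x k).g ω) (Tm i *ᵥ v) ≤ (2 ^ ((σ + e) * (S.F k).n)) ^ 2 * qf ((x k).g ω) v)) UF (𝓝 0) := by
  classical
  set Φ := gaq P D with hΦ
  have he2 : 0 < e / 2 := by linarith
  set lam : ℕ → ℝ := fun k => 2 ^ (-(2 * (σ + e / 2) * (S.F k).n)) with hlam
  have hlam0 : ∀ k, 0 < lam k := fun k => by positivity
  obtain ⟨K, hK, hone⟩ := Φ.one
  set y : ∀ k, FD (S.F k) (Mon M D) := fun k => derFD (lam k) (Φ.cp k) (x k) with hy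
  have hlg : ∀ k ω, gam (S.dl 1 k) ((x k).g ω) (P.v k ((x k).l.p.π ω)) ≤ 2 ^ (2 * (σ + e / 2) * (S.F k).n) →
      lam k * gam (S.dl 1 k) ((x k).g ω) (P.v k ((x k).l.p.π ω)) ≤ 1 := by
    intro k ω h
    have h1 : lam k * 2 ^ (2 * (σ + e / 2) * (S.F k).n) = 1 := by
      rw [hlam]
      show (2 : ℝ) ^ _ * _ = 1
      rw [← Real.rpow_add (by norm_num)]
      simp
    exact (mul_le_mul_of_nonneg_left h (hlam0 k).le).trans h1.le
  have hyA : Φ.Adf A y := by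
    intro η hη
    have hη2 : 0 < η / 2 := by linarith
    have hnk : ∀ᶠ k in UF, (1 / η : ℝ) ≤ (S.F k).n := S.lim.eventually (eventually_ge_atTop _)
    filter_upwards [hx.1 η hη, hK.eventually_le hη2, hone, (hsg _ he2).eventually (gt_mem_nhds hη),
      S.lim.eventually (eventually_ge_atTop (2 / η))] with k a b c d hn2
    have hn := (S.F k).pos
    refine ⟨a.1, fun ω hω => ⟨(a.2.1 ω hω).1, capd_Cpd (Φ.one_le_cp k) _⟩, a.2.2.1, ?_⟩
    refine le_trans (FSp.pb_mono _ ?_) d.le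
    intro ω hω h1 h2
    apply h1
    refine (der_phi (hlam0 k).le (fun v => (a.2.1 ω hω).1.psd.2 v) k _).trans ?_
    show Φ.φ k ((x k).l.p.π ω) 1 + lam k * gam (S.dl 1 k) ((x k).g ω) (P.v k ((x k).l.p.π ω)) ≤ _
    have h3 := hlg k ω h2
    have h4 := c ((x k).l.p.π ω) ((x k).l.p.supp ω hω)
    have h5 : (2 : ℝ) ^ (η / 2 * (S.F k).n) + 1 ≤ 2 ^ (η * (S.F k).n) := by
      have e1 : (2 : ℝ) ^ (η * (S.F k).n) = 2 ^ (η / 2 * (S.F k).n) * 2 ^ (η / 2 * (S.F k).n) := by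
        rw [← Real.rpow_add (by norm_num)]
        congr 1
        ring
      have e2 : (2 : ℝ) ≤ 2 ^ (η / 2 * (S.F k).n) := by
        have e3 : (2 : ℝ) ^ (1 : ℝ) ≤ 2 ^ (η / 2 * (S.F k).n) := by
          apply Real.rpow_le_rpow_of_exponent_le (by norm_num)
          rw [div_le_iff₀ hη] at hn2
          nlinarith
        simpa using e3
      rw [e1]
      nlinarith
    linarith
  have hopt := Φ.opt_nearf hyA (fun z hz => hx.2 z hz) e he
  -- the cap is not reached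
  have hcap : Tendsto (fun k => (x k).l.T.pb (fun ω => ¬ Cpd (Φ.cp k) (DA (lam k) ((x k).g ω)))) UF (𝓝 0) := by
    refine tendsto_of_tendsto_of_tendsto_of_le_of_le' tendsto_const_nhds (hsg _ he2)
      (Eventually.of_forall fun k => (x k).l.T.pb_nonneg _) ?_
    filter_upwards [hx.1 1 one_pos, hK.eventually_le (by norm_num : (0 : ℝ) < 1 / 2), hone, Φ.cap,
      S.lim.eventually (eventually_ge_atTop (2 : ℝ))] with k a b c d hn2
    have hn := (S.F k).pos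
    apply FSp.pb_mono
    intro ω hω h1 h2
    apply h1
    have hg := (a.2.1 ω hω).1
    have hge := DA_ge (hlam0 k).le (fun v => hg.psd.2 v)
    have hsy := DA_symm (lam k) hg.1
    refine ⟨hsy, hge, fun v => ?_⟩
    have h3 := d _ ((x k).l.p.supp ω hω) _ (pdM_of_one_le hsy hge) v
    refine h3.trans ?_
    apply mul_le_mul_of_nonneg_right _ (dot_self_nonneg v)
    unfold Gau.cp
    rw [add_mul, one_mul, Real.rpow_add (by norm_num)]
    apply mul_le_mul_of_nonneg_left _ (by positivity)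
    have h4 : Φ.φ k ((x k).l.p.π ω) (DA (lam k) ((x k).g ω)) = Φ.φ k ((x k).l.p.π ω) 1 +
      lam k * gam (S.dl 1 k) ((x k).g ω) (P.v k ((x k).l.p.π ω)) := DA_phi _ _ _ _
    rw [h4]
    have h5 := c ((x k).l.p.π ω) ((x k).l.p.supp ω hω)
    have h6 := hlg k ω h2
    have h7 : (2 : ℝ) ^ (1 / 2 * (S.F k).n) + 1 ≤ 2 ^ ((S.F k).n) := by
      have e1 : (2 : ℝ) ^ ((S.F k).n) = 2 ^ (1 / 2 * (S.F k).n) * 2 ^ (1 / 2 * (S.F k).n) := by
        rw [← Real.rpow_add (by norm_num)]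
        congr 1
        ring
      have e2 : (2 : ℝ) ≤ 2 ^ (1 / 2 * (S.F k).n) := by
        have e3 : (2 : ℝ) ^ (1 : ℝ) ≤ 2 ^ (1 / 2 * (S.F k).n) := by
          apply Real.rpow_le_rpow_of_exponent_le (by norm_num)
          linarith
        simpa using e3
      rw [e1]
      nlinarith
    linarith
  have hsum := hopt.add hcap
  rw [add_zero] at hsum
  refine tendsto_of_tendsto_of_tendsto_of_le_of_le' tendsto_const_nhds hsum
    (Eventually.of_forall fun k => (x k).l.T.pb_nonneg _) ?_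
  filter_upwards [hx.1 1 one_pos] with k a
  refine le_trans (FSp.pb_mono _ (E' := fun ω =>
    (¬ ∀ v, qf ((y k).g' ω) v ≤ 2 ^ (e * (S.F k).n) * qf ((y k).g ω) v) ∨
    ¬ Cpd (Φ.cp k) (DA (lam k) ((x k).g ω))) ?_) (pb_or _ _ _)
  intro ω hω h1
  by_contra hc
  rw [not_or, not_not, not_not] at hc
  apply h1
  intro i v
  have hg := (a.2.1 ω hω).1
  have h2 := hc.1 v
  have h3 : (y k).g' ω = DA (lam k) ((x k).g ω) := capd_eq hc.2
  rw [h3, DA_qf] at h2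
  have h4 : qf ((x k).g ω) (Tm i *ᵥ v) ≤ ∑ i, qf ((x k).g ω) (Tm i *ᵥ v) :=
    Finset.single_le_sum (f := fun i => qf ((x k).g ω) (Tm i *ᵥ v)) (fun i _ => hg.psd.2 _) (Finset.mem_univ i)
  have h5 : lam k * qf ((x k).g ω) (Tm i *ᵥ v) ≤ 2 ^ (e * (S.F k).n) * qf ((x k).g ω) v := by
    refine (mul_le_mul_of_nonneg_left h4 (hlam0 k).le).trans ?_
    have := dot_self_nonneg v
    show _ ≤ 2 ^ (e * (S.F k).n) * qf ((y k).g ω) v
    linarith
  have h6 : ((2 : ℝ) ^ ((σ + e) * (S.F k).n)) ^ 2 = 2 ^ (2 * (σ + e / 2) * (S.F k).n) * 2 ^ (e * (S.F k).n) := by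
    rw [← Real.rpow_natCast, ← Real.rpow_mul (by norm_num), ← Real.rpow_add (by norm_num)]
    congr 1
    push_cast
    ring
  have h7 : (2 : ℝ) ^ (2 * (σ + e / 2) * (S.F k).n) * lam k = 1 := by
    rw [hlam]
    show _ * (2 : ℝ) ^ _ = 1
    rw [← Real.rpow_add (by norm_num)]
    simp
  calc qf ((x k).g ω) (Tm i *ᵥ v) = 2 ^ (2 * (σ + e / 2) * (S.F k).n) * (lam k * qf ((x k).g ω) (Tm i *ᵥ v)) := by
        rw [← mul_assoc, h7, one_mul]
    _ ≤ 2 ^ (2 * (σ + e / 2) * (S.F k).n) * (2 ^ (e * (S.F k).n) * qf ((x k).g ω) v) :=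
        mul_le_mul_of_nonneg_left h5 (by positivity)
    _ = _ := by rw [h6]; ring

/-- the polynomials of the monomials on a leaf -/
def Qmon (Φ : Fin M → MvPolynomial (Fin d) ℝ) (a : Mon M D) : MvPolynomial (Fin d) ℝ :=
  ∏ i, Φ i ^ (a.1 i : ℕ)

theorem Qmon_eval (Φ : Fin M → MvPolynomial (Fin d) ℝ) (X : Fin d → ℝ) :
    evq (Qmon (D := D) Φ) X = vv (fun i => MvPolynomial.eval X (Φ i)) := by
  funext a
  unfold evq Qmon
  rw [map_prod, vv_apply]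
  exact Finset.prod_congr rfl fun i _ => map_pow _ _ _

theorem Qmon_deg (Φ : Fin M → MvPolynomial (Fin d) ℝ) (K : ℕ) (hΦ : ∀ i, (Φ i).totalDegree ≤ K)
    (a : Mon M D) : (Qmon Φ a).totalDegree ≤ D * K := by
  unfold Qmon
  refine (MvPolynomial.totalDegree_finsetProd _ _).trans ?_
  calc ∑ i, (Φ i ^ (a.1 i : ℕ)).totalDegree ≤ ∑ i, (a.1 i : ℕ) * K := by
        refine Finset.sum_le_sum fun i _ => ?_
        exact (MvPolynomial.totalDegree_pow _ _).trans (Nat.mul_le_mul_left _ (hΦ i))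
    _ = (∑ i, (a.1 i : ℕ)) * K := by rw [Finset.sum_mul]
    _ ≤ D * K := Nat.mul_le_mul_right _ a.2

/-- a leaf in space: parameter in the unit cube, distance at most `2 ^ (-(σ + (1 - e) E) n)` -/
def LeafP (P : S.VV M) (x : ∀ k, FD (S.F k) (Mon M D)) (k : ℕ) (l : FLab ((Ov x).F k)) (σ E e : ℝ)
    (X : l.T.Ω → Fin d → ℝ) (Φ : l.T.Ω → Fin M → MvPolynomial (Fin d) ℝ) (ω : l.T.Ω) : Prop :=
  (∀ i, 0 ≤ X ω i ∧ X ω i ≤ 1) ∧
  ∀ i, |P.v k ((x k).l.p.π (l.p.π ω)) i - MvPolynomial.eval (X ω) (Φ ω i)| ≤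
    2 ^ (-((σ + (1 - e) * E) * (S.F k).n))

/-- points close to `p` are close in the gauge -/
theorem pt_close {A : Matrix (Mon M D) (Mon M D) ℝ} (hA : PdM A) (B r H : ℝ) (hr : 0 ≤ r) (hB : 0 ≤ B)
    (hT : ∀ (i : Fin M) v, qf A (Tm i *ᵥ v) ≤ B ^ 2 * qf A v) (hK : (M : ℝ) * B * r ≤ 1)
    (dl : ℝ) (p : Fin M → ℝ) (hp : phi dl A p ≤ H) (q : Fin M → ℝ) (hq : ∀ i, |q i - p i| ≤ r) :
    qf A (vv q - vv p) ≤ (2 * ((M : ℝ) * B * r)) ^ 2 * H := by
  have h1 := gro_A A hA B r hr hB hT p (fun i => q i - p i) hq hK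
  have e1 : (fun k => p k + (q k - p k)) = q := by
    funext k
    ring
  rw [e1] at h1
  refine h1.trans (mul_le_mul_of_nonneg_left (le_trans ?_ hp) (sq_nonneg _))
  have e2 : nodp D p dl (fun _ => 0) = p := by
    funext i
    unfold nodp nod
    simp
  unfold phi
  refine le_trans (le_of_eq ?_) (Finset.single_le_sum (f := fun j => vv (nodp D p dl j) ⬝ᵥ
    (A *ᵥ vv (nodp D p dl j))) (fun j _ => hA.nonneg _) (Finset.mem_univ (fun _ => 0)))
  show _ = vv (nodp D p dl (fun _ => 0)) ⬝ᵥ (A *ᵥ vv (nodp D p dl (fun _ => 0)))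
  rw [e2]
  rfl

/-- from leaves in space to leaves in the gauge -/
theorem leafP_leaf0 (x : ∀ k, FD (S.F k) (Mon M D)) (k : ℕ) (l : FLab ((Ov x).F k)) (σ E e δ : ℝ)
    (hσ : (σ + (1 - e) * E) ≤ 1) (X : l.T.Ω → Fin d → ℝ) (Φ : l.T.Ω → Fin M → MvPolynomial (Fin d) ℝ) (ω : l.T.Ω)
    (hg : PdM ((x k).g (l.p.π ω))) (hs : ((x k).g (l.p.π ω)).IsSymm)
    (h1 : LeafP P x k l σ E e X Φ ω) (h2 : PhG P x k l (2 ^ (δ * (S.F k).n)) ω)
    (h3 : ∀ (i : Fin M) v, qf ((x k).g (l.p.π ω)) (Tm i *ᵥ v) ≤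
      (2 ^ ((σ + δ) * (S.F k).n)) ^ 2 * qf ((x k).g (l.p.π ω)) v)
    (h4 : (M : ℝ) ≤ 2 ^ (((1 - e) * E - δ) * (S.F k).n))
    (h5 : 16 * (M : ℝ) ^ 2 ≤ 2 ^ ((2 * e * E - 3 * δ) * (S.F k).n)) :
    LeafG0 P x k l E (2 * e) X (fun ω => Qmon (Φ ω)) ω := by
  refine ⟨h1.1, fun j => ?_⟩
  have hn := (S.F k).pos
  generalize hnn : (S.F k).n = n at *
  generalize hA : (x k).g (l.p.π ω) = A at *
  have hB0 : (0 : ℝ) ≤ 2 ^ ((σ + δ) * n) := by positivity
  have hr0 : (0 : ℝ) ≤ 2 ^ (-((σ + (1 - e) * E) * n)) := by positivity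
  have hBr : (2 : ℝ) ^ ((σ + δ) * n) * 2 ^ (-((σ + (1 - e) * E) * n)) = 2 ^ (-(((1 - e) * E - δ) * n)) := by
    rw [← Real.rpow_add (by norm_num)]
    congr 1
    ring
  have hK : (M : ℝ) * 2 ^ ((σ + δ) * n) * 2 ^ (-((σ + (1 - e) * E) * n)) ≤ 1 := by
    rw [mul_assoc, hBr, Real.rpow_neg (by norm_num), ← div_eq_mul_inv, div_le_one (by positivity)]
    exact h4
  set p := P.v k ((x k).l.p.π (l.p.π ω)) with hp
  have hph : phi (S.dl 1 k) A p ≤ 2 ^ (δ * n) := by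
    have := h2
    unfold PhG at this
    rw [hA] at this
    exact this
  have hdl : S.dl 1 k ≤ 2 ^ (-((σ + (1 - e) * E) * n)) := by
    unfold Sp.dl
    rw [hnn]
    apply Real.rpow_le_rpow_of_exponent_le (by norm_num)
    nlinarith
  have a1 := pt_close hg _ _ _ hr0 hB0 h3 hK (S.dl 1 k) p hph (nodp D p (S.dl 1 k) j) (fun i => by
    unfold nodp
    rw [add_sub_cancel_left, abs_mul, abs_of_pos (S.dl_pos 1 k)]
    have h6 : |nod D (j i)| ≤ 1 := by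
      unfold nod
      rw [abs_of_nonneg (by positivity), div_le_one (by positivity)]
      have := (j i).2
      have h7 : ((j i : ℕ) : ℝ) ≤ D := by exact_mod_cast Nat.lt_succ_iff.mp this
      linarith
    calc S.dl 1 k * |nod D (j i)| ≤ S.dl 1 k * 1 := mul_le_mul_of_nonneg_left h6 (S.dl_pos 1 k).le
      _ ≤ _ := by rw [mul_one]; exact hdl)
  have a2 := pt_close hg _ _ _ hr0 hB0 h3 hK (S.dl 1 k) p hph (fun i => MvPolynomial.eval (X ω) (Φ ω i)) (fun i => by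
    rw [abs_sub_comm, ← hnn]
    exact h1.2 i)
  have a3 := qf_dif (fun v => hg.nonneg v) hs (vv (nodp D p (S.dl 1 k) j)) (vv p)
    (vv (fun i => MvPolynomial.eval (X ω) (Φ ω i)))
  have e1 : ndq P x k (l.p.π ω) j - evq (Qmon (D := D) (Φ ω)) (X ω) =
      vv (nodp D p (S.dl 1 k) j) - vv (fun i => MvPolynomial.eval (X ω) (Φ ω i)) := by
    rw [Qmon_eval]
    rfl
  show qf A (ndq P x k (l.p.π ω) j - evq (Qmon (D := D) (Φ ω)) (X ω)) ≤ _
  rw [e1]
  refine a3.trans ?_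
  have e2 : (2 * ((M : ℝ) * 2 ^ ((σ + δ) * n) * 2 ^ (-((σ + (1 - e) * E) * n)))) ^ 2 * 2 ^ (δ * n) =
      4 * (M : ℝ) ^ 2 * (2 ^ (-((1 - 2 * e) * E * n))) ^ 2 * 2 ^ (-((2 * e * E - 3 * δ) * n)) := by
    rw [mul_assoc ((M : ℝ)), hBr]
    have e3 : ((2 : ℝ) ^ (-(((1 - e) * E - δ) * n))) ^ 2 * 2 ^ (δ * n) =
        (2 ^ (-((1 - 2 * e) * E * n))) ^ 2 * 2 ^ (-((2 * e * E - 3 * δ) * n)) := by
      rw [← Real.rpow_natCast, ← Real.rpow_natCast, ← Real.rpow_mul (by norm_num), ← Real.rpow_mul (by norm_num),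
        ← Real.rpow_add (by norm_num), ← Real.rpow_add (by norm_num)]
      congr 1
      push_cast
      ring
    calc (2 * ((M : ℝ) * 2 ^ (-(((1 - e) * E - δ) * n)))) ^ 2 * 2 ^ (δ * n) =
        4 * (M : ℝ) ^ 2 * ((2 ^ (-(((1 - e) * E - δ) * n))) ^ 2 * 2 ^ (δ * n)) := by ring
      _ = _ := by rw [e3]; ring
  rw [e2] at a1 a2
  have e4 : (2 : ℝ) ^ ((2 * e * E - 3 * δ) * n) * 2 ^ (-((2 * e * E - 3 * δ) * n)) = 1 := by
    rw [← Real.rpow_add (by norm_num)]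
    simp
  have e5 : 16 * (M : ℝ) ^ 2 * 2 ^ (-((2 * e * E - 3 * δ) * n)) ≤ 1 := by
    rw [← e4]
    exact mul_le_mul_of_nonneg_right h5 (by positivity)
  have e6 : 0 ≤ ((2 : ℝ) ^ (-((1 - 2 * e) * E * n))) ^ 2 := by positivity
  nlinarith [mul_le_mul_of_nonneg_left e5 e6]

/-- THEOREM DEGREE for leaves in space: `σ` is (a bound of) the thickness of the canonical form of degree `D` of the
window `c`; then no full polynomial leaf of any degree contains the point to the precision `σ + (1 - e) E` -/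
theorem degree_leaf {pr : ℕ} (hpr : 1 ≤ pr) (hD : 1 ≤ D) (hcard : Fintype.card (Mon d (d * pr)) < Fintype.card (Mon M D)) {W : ℝ}
    {κ : Type} {A : κ → Part S} {x : ∀ k, FD (S.F k) (Mon M D)} (hx : Inp P x pr W) (ho : (gaq P D).Optf A x) (σ E e : ℝ)
    (hsg : ∀ δ : ℝ, 0 < δ → Tendsto (fun k => (x k).l.T.pb (fun ω =>
      ¬ gam (S.dl 1 k) ((x k).g ω) (P.v k ((x k).l.p.π ω)) ≤ 2 ^ (2 * (σ + δ) * (S.F k).n))) UF (𝓝 0))
    (hE : 0 < E) (hE1 : E ≤ W) (hσE : σ + E ≤ 1) (he0 : 0 < e) (K : ℕ) (hK : 1 ≤ K)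
    (he : ((d * pr + 1 : ℕ) : ℝ) * (pr + 2) * ((d * ((D * K : ℕ) : ℝ) + 3) * (2 * e)) < 1)
    (l : ∀ k, FLab ((Ov x).F k)) (hU : UB (fun k => (l k).info / (S.F k).n))
    (hl : ul (fun k => (l k).info / (S.F k).n) ≤ e * E) (X : ∀ k, (l k).T.Ω → Fin d → ℝ)
    (Φ : ∀ k, (l k).T.Ω → Fin M → MvPolynomial (Fin d) ℝ) (hΦd : ∀ k ω i, (Φ k ω i).totalDegree ≤ K)
    (hΦ : ∀ k ω ω', (l k).T.μ ω ≠ 0 → (l k).T.μ ω' ≠ 0 → (l k).V ω ω' → (l k).T.Z ω ω' → Φ k ω = Φ k ω')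
    (hev : ∀ᶠ k in UF, (l k).T.pb (fun ω => ¬ LeafP P x k (l k) σ E e (X k) (Φ k) ω) ≤ e)
    (hful : ∀ᶠ k in UF, (d * (E / ((d * pr + 1 : ℕ) : ℝ)) - e ^ 2 * E) * (S.F k).n ≤
      (l k).T.e (Setoid.ker (fun ω => ucell (2 ^ (-(E / ((d * pr + 1 : ℕ) : ℝ) * (S.F k).n))) (X k ω)))
        ((l k).V ⊓ (l k).T.Z)) : False := by
  classical
  have hn0 : ∀ k, 0 < (S.F k).n := fun k => (S.F k).pos
  set δ : ℝ := e * E / 8 with hδ
  have heE : 0 < e * E := by positivity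
  have hδ0 : 0 < δ := by positivity
  -- typical events on the space over the form
  have hdom := der_dom ho σ hsg δ hδ0
  have hmr : (0 : ℝ) ≤ d := Nat.cast_nonneg d
  have hDr : (1 : ℝ) ≤ pr := by exact_mod_cast hpr
  have hDKr : (0 : ℝ) ≤ d * ((D * K : ℕ) : ℝ) := by positivity
  have he1 : 6 * e < 1 := by
    have a1 : (1 : ℝ) ≤ ((d * pr + 1 : ℕ) : ℝ) := by
      push_cast
      have : (0 : ℝ) ≤ d * pr := by positivity
      linarith
    have a2 : (1 : ℝ) ≤ ((d * pr + 1 : ℕ) : ℝ) * (pr + 2) := by nlinarith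
    have a3 : 6 * e ≤ (d * ((D * K : ℕ) : ℝ) + 3) * (2 * e) := by nlinarith
    have a4 : 0 ≤ (d * ((D * K : ℕ) : ℝ) + 3) * (2 * e) := by positivity
    nlinarith
  have hDK : 1 ≤ D * K := Nat.one_le_iff_ne_zero.mpr (Nat.mul_ne_zero (by omega) (by omega))
  have hσ1 : σ + (1 - e) * E ≤ 1 := by nlinarith
  refine degree_full P hpr hcard hx E (2 * e) hE hE1 (by linarith) (D * K) hDK he l hU
    (hl.trans (by nlinarith)) X (fun k ω => Qmon (Φ k ω)) (fun k ω a => Qmon_deg _ K (hΦd k ω) a)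
    (fun k ω ω' a b c d => by
      show Qmon (Φ k ω) = Qmon (Φ k ω')
      rw [hΦ k ω ω' a b c d]) ?_ ?_
  · have he4 : 0 < e / 4 := by linarith
    filter_upwards [hev, hdom.eventually (gt_mem_nhds he4), ho.1 (min δ (e / 4)) (lt_min hδ0 he4),
      ev_pow S ((1 - e) * E - δ) (by rw [hδ]; nlinarith) (M : ℝ),
      ev_pow S (2 * e * E - 3 * δ) (by rw [hδ]; linarith) (16 * (M : ℝ) ^ 2)] with k b1 b2 b3 b4 b5
    have hn := hn0 k
    have b6 : (l k).T.pb (fun ω => ¬ ∀ (i : Fin M) (v : Mon M D → ℝ),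
        qf ((x k).g ((l k).p.π ω)) (Tm i *ᵥ v) ≤ (2 ^ ((σ + δ) * (S.F k).n)) ^ 2 * qf ((x k).g ((l k).p.π ω)) v) ≤
        e / 4 := by
      have := pb_push (l k).p (fun ω => ¬ ∀ (i : Fin M) (v : Mon M D → ℝ),
        qf ((x k).g ω) (Tm i *ᵥ v) ≤ (2 ^ ((σ + δ) * (S.F k).n)) ^ 2 * qf ((x k).g ω) v)
      rw [this]
      exact b2.le
    have b7 : (l k).T.pb (fun ω => ¬ PhG P x k (l k) (2 ^ (δ * (S.F k).n)) ω) ≤ e / 4 := by
      have := pb_push (l k).p (fun ω => ¬ phi (S.dl 1 k) ((x k).g ω) (P.v k ((x k).l.p.π ω)) ≤ 2 ^ (δ * (S.F k).n))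
      have c1 : (l k).T.pb (fun ω => ¬ PhG P x k (l k) (2 ^ (δ * (S.F k).n)) ω) =
        (x k).l.T.pb (fun ω => ¬ phi (S.dl 1 k) ((x k).g ω) (P.v k ((x k).l.p.π ω)) ≤ 2 ^ (δ * (S.F k).n)) := this
      rw [c1]
      have c2 := b3.2.2.1
      have c3 : min δ (e / 4) ≤ e / 4 := min_le_right _ _
      refine le_trans (FSp.pb_mono _ ?_) (c2.trans c3)
      intro ω _ c4 c5
      apply c4
      refine le_trans c5 ?_
      apply Real.rpow_le_rpow_of_exponent_le (by norm_num)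
      exact mul_le_mul_of_nonneg_right (min_le_left _ _) hn.le
    have b8 : (l k).T.pb (fun ω => ¬ LeafG0 P x k (l k) E (2 * e) (X k) (fun ω => Qmon (Φ k ω)) ω) ≤
        (l k).T.pb (fun ω => (¬ LeafP P x k (l k) σ E e (X k) (Φ k) ω) ∨
          ((¬ ∀ (i : Fin M) (v : Mon M D → ℝ),
            qf ((x k).g ((l k).p.π ω)) (Tm i *ᵥ v) ≤
              (2 ^ ((σ + δ) * (S.F k).n)) ^ 2 * qf ((x k).g ((l k).p.π ω)) v) ∨
            ¬ PhG P x k (l k) (2 ^ (δ * (S.F k).n)) ω)) := by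
      apply FSp.pb_mono
      intro ω hω c1
      by_contra c2
      rw [not_or, not_or, not_not, not_not, not_not] at c2
      apply c1
      have hg := (b3.2.1 _ ((l k).p.supp ω hω)).1
      exact leafP_leaf0 x k (l k) σ E e δ hσ1 (X k) (Φ k) ω hg.pdM hg.1 c2.1 c2.2.2 c2.2.1 b4 b5
    refine b8.trans ((pb_or _ _ _).trans ?_)
    have b9 := pb_or (l k).T (fun ω => ¬ ∀ (i : Fin M) (v : Mon M D → ℝ),
            qf ((x k).g ((l k).p.π ω)) (Tm i *ᵥ v) ≤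
              (2 ^ ((σ + δ) * (S.F k).n)) ^ 2 * qf ((x k).g ((l k).p.π ω)) v)
      (fun ω => ¬ PhG P x k (l k) (2 ^ (δ * (S.F k).n)) ω)
    linarith
  · filter_upwards [hful] with k hk
    refine le_trans ?_ hk
    apply mul_le_mul_of_nonneg_right _ (hn0 k).le
    nlinarith [mul_pos (mul_pos he0 he0) hE]

end

end Pool.Agent.Helper48.DGM
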