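import Pool.Agent.Helper48.DGM.Pol
import Pool.Agent.Helper48.NS.Dful

/-! THEOREM DEGREE for points of `R ^ M`: the bound of the leaf on the whole cube follows from the fullness of the
coordinates of the leaf at the resolution `E / (d pr + 1)`. -/

set_option autoImplicit false

namespace Pool.Agent.Helper48.DGM

open Finset Filter Topology Matrix Pool.Agent.Helper69.RK Pool.Agent.Helper31.EC Pool.Agent.Helper40.EL
open Pool.Agent.Helper89.LX Pool.Agent.Helper3.LF Pool.Agent.Helper84.MT Pool.Agent.Helper59.LF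
open Pool.Agent.Helper48.NS hiding deg_vec deg_sub degree leaf_pt leaf_cube degree_full
open Pool.Agent.Helper95.LF (PdM)

noncomputable section

variable {S : Sp} {M D d : ℕ} (P : S.VV M)

/-- the point is in the leaf up to `2 ^ (-(1 - e) E n)` in the gauge of the form -/
def LeafG0 (x : ∀ k, FD (S.F k) (Mon M D)) (k : ℕ) (l : FLab ((Ov x).F k)) (E e : ℝ) (X : l.T.Ω → Fin d → ℝ)
    (Q : l.T.Ω → Mon M D → MvPolynomial (Fin d) ℝ) (ω : l.T.Ω) : Prop :=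
  (∀ i, 0 ≤ X ω i ∧ X ω i ≤ 1) ∧
  ∀ j, qf ((x k).g (l.p.π ω)) (ndq P x k (l.p.π ω) j - evq (Q ω) (X ω)) ≤ (2 ^ (-((1 - e) * E * (S.F k).n))) ^ 2

/-- the size of the form at the point -/
def PhG (x : ∀ k, FD (S.F k) (Mon M D)) (k : ℕ) (l : FLab ((Ov x).F k)) (H : ℝ) (ω : l.T.Ω) : Prop :=
  phi (S.dl 1 k) ((x k).g (l.p.π ω)) (P.v k ((x k).l.p.π (l.p.π ω))) ≤ H

/-- the form on the leaf at a good point -/
theorem leaf_pt (x : ∀ k, FD (S.F k) (Mon M D)) (k : ℕ) (l : FLab ((Ov x).F k)) (E e H : ℝ)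
    (hE : 0 ≤ (1 - e) * E) (hH : 1 ≤ H) (X : l.T.Ω → Fin d → ℝ)
    (Q : l.T.Ω → Mon M D → MvPolynomial (Fin d) ℝ) (ω : l.T.Ω)
    (hg : ∀ v, 0 ≤ qf ((x k).g (l.p.π ω)) v)
    (h1 : LeafG0 P x k l E e X Q ω) (h2 : PhG P x k l H ω) (cf : Mon M D → ℝ)
    (hcf : ∀ w, (cf ⬝ᵥ w) ^ 2 ≤ qf ((x k).g (l.p.π ω)) w) : |cf ⬝ᵥ evq (Q ω) (X ω)| ≤ 2 * H := by
  set j₀ : Fin M → Fin (D + 1) := fun _ => 0 with hj₀
  have b1 := (hcf (ndq P x k (l.p.π ω) j₀ - evq (Q ω) (X ω))).trans (h1.2 j₀)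
  have b2 := abs_le_of_sq_le_sq b1 (by positivity)
  have b3 : (2 : ℝ) ^ (-((1 - e) * E * (S.F k).n)) ≤ 1 := by
    apply Real.rpow_le_one_of_one_le_of_nonpos (by norm_num)
    have : 0 ≤ (1 - e) * E * (S.F k).n := mul_nonneg hE (S.F k).pos.le
    linarith
  have b4 : qf ((x k).g (l.p.π ω)) (ndq P x k (l.p.π ω) j₀) ≤
      phi (S.dl 1 k) ((x k).g (l.p.π ω)) (P.v k ((x k).l.p.π (l.p.π ω))) := by
    unfold phi
    exact Finset.single_le_sum (f := fun j => vv (nodp D (P.v k ((x k).l.p.π (l.p.π ω)))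
      (S.dl 1 k) j) ⬝ᵥ ((x k).g (l.p.π ω) *ᵥ vv (nodp D (P.v k ((x k).l.p.π (l.p.π ω)))
      (S.dl 1 k) j))) (fun j _ => hg _) (Finset.mem_univ j₀)
  have b6 : (cf ⬝ᵥ ndq P x k (l.p.π ω) j₀) ^ 2 ≤ H ^ 2 := by
    refine ((hcf _).trans (b4.trans h2)).trans ?_
    nlinarith
  have b7 := abs_le_of_sq_le_sq b6 (by linarith)
  have b8 : cf ⬝ᵥ evq (Q ω) (X ω) = cf ⬝ᵥ ndq P x k (l.p.π ω) j₀ -
      cf ⬝ᵥ (ndq P x k (l.p.π ω) j₀ - evq (Q ω) (X ω)) := by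
    rw [dotProduct_sub]
    ring
  rw [b8]
  have b9 := abs_sub (cf ⬝ᵥ ndq P x k (l.p.π ω) j₀) (cf ⬝ᵥ (ndq P x k (l.p.π ω) j₀ - evq (Q ω) (X ω)))
  linarith

/-- the form on the whole leaf -/
theorem leaf_cube (x : ∀ k, FD (S.F k) (Mon M D)) (k : ℕ) (l : FLab ((Ov x).F k)) (E e H : ℝ)
    (hE : 0 ≤ (1 - e) * E) (hH : 1 ≤ H) (Kd : ℕ) (hKd : 1 ≤ Kd) (X : l.T.Ω → Fin d → ℝ)
    (Q : l.T.Ω → Mon M D → MvPolynomial (Fin d) ℝ) (hQd : ∀ ω a, (Q ω a).totalDegree ≤ Kd)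
    (hQ : ∀ ω ω', l.T.μ ω ≠ 0 → l.T.μ ω' ≠ 0 → l.V ω ω' → l.T.Z ω ω' → Q ω = Q ω')
    (cp : ℝ) (hcp : ∀ ω, (x k).l.T.μ ω ≠ 0 → Cpd cp ((x k).g ω)) (ρ θ : ℝ) (hρ0 : 0 < ρ) (hρ1 : ρ ≤ 1) (hθ0 : 0 < θ)
    (hsm : 12 * Kd * 4 ^ d * ρ ≤ θ)
    (hsm2 : Ag Kd d * (1 / θ) ^ (d * Kd) * (Ct d Kd 1 * 2 * ρ) ≤ 1 / 2) (ω : l.T.Ω) (hω : l.T.μ ω ≠ 0)
    (hcard : θ * (1 / ρ) ^ d ≤ (vals (fun ω => ucell ρ (X ω)) (l.V ⊓ l.T.Z)
      (fun ω => LeafG0 P x k l E e X Q ω ∧ PhG P x k l H ω) ω).card)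
    (y : Fin d → ℝ) (hy : ∀ i, 0 ≤ y i ∧ y i ≤ 1) :
    qf ((x k).g (l.p.π ω)) (evq (Q ω) y) ≤ (2 * (Ag Kd d * (1 / θ) ^ (d * Kd)) * (2 * H)) ^ 2 := by
  have hgω := hcp _ (l.p.supp ω hω)
  apply qf_le_of hgω.1 (fun v => hgω.psd.2 v)
  intro cf hcf
  rw [dot_evq]
  refine cube_bound Kd hKd (∑ a, cf a • Q ω a) ?_ ρ θ (2 * H) hρ0 hρ1 hθ0 (by linarith) hsm hsm2 _ ?_ hcard ?_ y hy
  · refine MvPolynomial.totalDegree_finsetSum_le fun b _ => ?_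
    exact (MvPolynomial.totalDegree_smul_le _ _).trans (hQd ω b)
  · intro u hu i
    obtain ⟨ω', a1, a2, a3, rfl⟩ := mem_vals.mp hu
    have f1 := a3.1.1
    simp only [ucell]
    rw [if_pos f1]
    have b1 := Int.floor_le (X ω' i / ρ)
    have b2 : 0 ≤ ⌊X ω' i / ρ⌋ := Int.floor_nonneg.mpr (div_nonneg (f1 i).1 hρ0.le)
    constructor
    · have : (0 : ℝ) ≤ ⌊X ω' i / ρ⌋ := by exact_mod_cast b2
      exact mul_nonneg hρ0.le this
    · rw [le_div_iff₀ hρ0] at b1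
      linarith [(f1 i).2]
  · intro u hu
    obtain ⟨ω', a1, a2, a3, rfl⟩ := mem_vals.mp hu
    have f1 := a3.1.1
    refine ⟨X ω', ?_, ?_⟩
    · intro i
      simp only [ucell]
      rw [if_pos f1]
      have b1 := Int.floor_le (X ω' i / ρ)
      have b2 := Int.lt_floor_add_one (X ω' i / ρ)
      rw [le_div_iff₀ hρ0] at b1
      rw [div_lt_iff₀ hρ0] at b2
      rw [abs_le]
      constructor <;> nlinarith
    · have hQe : Q ω' = Q ω := hQ ω' ω a1 hω a2.1 a2.2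
      have hπ1 := l.p.supp ω' a1
      have hπ2 := l.p.supp ω hω
      have hZ : ((Ov x).F k).Z (l.p.π ω') (l.p.π ω) := (l.p.hZ ω' ω a1 hω).mp a2.2
      have hZ' : (x k).l.V (l.p.π ω') (l.p.π ω) ∧ (x k).l.T.Z (l.p.π ω') (l.p.π ω) := hZ
      have hge : (x k).g (l.p.π ω') = (x k).g (l.p.π ω) := ((x k).meas _ _ hπ1 hπ2 hZ'.1 hZ'.2).1
      rw [← hQe, ← dot_evq]
      exact leaf_pt P x k l E e H hE hH X Q ω' (fun v => (hcp _ hπ1).psd.2 v) a3.1 a3.2 cf (fun w => by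
        rw [hge]
        exact hcf w)

/-- THEOREM DEGREE for full leaves -/
theorem degree_full {pr : ℕ} (hD : 1 ≤ pr) (hcard : Fintype.card (Mon d (d * pr)) < Fintype.card (Mon M D)) {W : ℝ}
    {x : ∀ k, FD (S.F k) (Mon M D)} (hx : Inp P x pr W) (E e : ℝ) (hE : 0 < E)
    (hE1 : E ≤ W) (he0 : 0 < e) (Kd : ℕ) (hKd : 1 ≤ Kd)
    (he : ((d * pr + 1 : ℕ) : ℝ) * (pr + 2) * ((d * Kd + 3) * e) < 1)
    (l : ∀ k, FLab ((Ov x).F k)) (hU : UB (fun k => (l k).info / (S.F k).n))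
    (hl : ul (fun k => (l k).info / (S.F k).n) ≤ e * E) (X : ∀ k, (l k).T.Ω → Fin d → ℝ)
    (Q : ∀ k, (l k).T.Ω → Mon M D → MvPolynomial (Fin d) ℝ) (hQd : ∀ k ω a, (Q k ω a).totalDegree ≤ Kd)
    (hQ : ∀ k ω ω', (l k).T.μ ω ≠ 0 → (l k).T.μ ω' ≠ 0 → (l k).V ω ω' → (l k).T.Z ω ω' → Q k ω = Q k ω')
    (hev : ∀ᶠ k in UF, (l k).T.pb (fun ω => ¬ LeafG0 P x k (l k) E e (X k) (Q k) ω) ≤ e)
    (hful : ∀ᶠ k in UF, (d * (E / ((d * pr + 1 : ℕ) : ℝ)) - e ^ 2 * E) * (S.F k).n ≤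
      (l k).T.e (Setoid.ker (fun ω => ucell (2 ^ (-(E / ((d * pr + 1 : ℕ) : ℝ) * (S.F k).n))) (X k ω)))
        ((l k).V ⊓ (l k).T.Z)) : False := by
  classical
  set N := d * pr with hN
  have hNpos : (0 : ℝ) < ((N + 1 : ℕ) : ℝ) := by positivity
  have hN1 : (1 : ℝ) ≤ ((N + 1 : ℕ) : ℝ) := by
    push_cast
    have : (0 : ℝ) ≤ N := Nat.cast_nonneg N
    linarith
  have hDr : (1 : ℝ) ≤ pr := by exact_mod_cast hD
  have hKr : (1 : ℝ) ≤ Kd := by exact_mod_cast hKd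
  have hmr : (0 : ℝ) ≤ d := Nat.cast_nonneg d
  have hmK : (0 : ℝ) ≤ d * Kd := by positivity
  set σ : ℝ := E / ((N + 1 : ℕ) : ℝ) with hσ
  have hσ0 : 0 < σ := div_pos hE hNpos
  set e' : ℝ := (d * Kd + 3) * e with he'
  have he'0 : 0 < e' := by positivity
  have hee' : 3 * e ≤ e' := by
    rw [he']
    nlinarith [mul_nonneg hmK he0.le]
  have hNe : ((N + 1 : ℕ) : ℝ) * e' < 1 := by
    have h2 : ((N + 1 : ℕ) : ℝ) * e' ≤ ((N + 1 : ℕ) : ℝ) * (pr + 2) * e' := by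
      have : 0 ≤ ((N + 1 : ℕ) : ℝ) * e' := by positivity
      nlinarith
    linarith
  have hσe : e' * E < σ := by
    rw [hσ, lt_div_iff₀ hNpos]
    nlinarith
  have he'1 : e' < 1 := by nlinarith
  have he1 : e < 1 := by linarith
  have heE : 0 < e * E := by positivity
  obtain ⟨η, hη0, hη1, hη2⟩ : ∃ η : ℝ, 0 < η ∧ η ≤ e * E / 2 ∧ η ≤ e / 2 := by
    refine ⟨min (e * E) e / 2, ?_, ?_, ?_⟩
    · have := lt_min heE he0
      linarith
    · have := min_le_left (e * E) e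
      linarith
    · have := min_le_right (e * E) e
      linarith
  have hA1 : 1 ≤ Ag Kd d := Ag_one Kd hKd d
  have hCt := Ct_one d Kd 1
  have hKe : d * Kd * (e * E) ≤ e' * E := by
    rw [he']
    nlinarith [mul_nonneg hmK heE.le]
  refine degree P hD hcard hx E e' hE hE1 he'0.le he l hU
    (hl.trans (mul_le_mul_of_nonneg_right (by linarith) hE.le)) Kd X Q hQd hQ ?_
  have c1 := ev_pow S (σ - e * E) (by nlinarith) (12 * Kd * 4 ^ d)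
  have c2 := ev_pow S (σ - d * Kd * (e * E)) (by linarith) (4 * Ag Kd d * Ct d Kd 1)
  have c3 := ev_pow S (3 * (e * E) - η) (by linarith) (4 * Ag Kd d)
  have c4 := S.lim.eventually (eventually_ge_atTop (2 * (1 + d) / (e ^ 2 * E)))
  filter_upwards [hev, hful, hx.cpd, hx.bdg η hη0, c1, c2, c3, c4] with k hk hfk hAc hAb c1 c2 c3 c4
  have hn := (S.F k).pos
  generalize hnn : (S.F k).n = n at *
  generalize hρ : (2 : ℝ) ^ (-(σ * n)) = ρ at *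
  have hρ0 : 0 < ρ := by rw [← hρ]; positivity
  have hρ1 : ρ ≤ 1 := by
    rw [← hρ]
    apply Real.rpow_le_one_of_one_le_of_nonpos (by norm_num)
    have : 0 ≤ σ * n := by positivity
    linarith
  obtain ⟨θ, hθ⟩ : ∃ θ : ℝ, θ = 2 ^ (-(e * E * n)) := ⟨_, rfl⟩
  have hθ0 : 0 < θ := by rw [hθ]; positivity
  have hθρ : θ = 2 ^ ((σ - e * E) * n) * ρ := by rw [hθ, ← hρ]; exact par_rho _ _ _
  have hθK : (1 / θ) ^ (d * Kd) = 2 ^ (d * Kd * (e * E) * n) := by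
    rw [hθ, par_pow]
    congr 1
    push_cast
    ring
  have hsm : 12 * Kd * 4 ^ d * ρ ≤ θ := by
    rw [hθρ]
    exact mul_le_mul_of_nonneg_right c1 hρ0.le
  have hsm2 : Ag Kd d * (1 / θ) ^ (d * Kd) * (Ct d Kd 1 * 2 * ρ) ≤ 1 / 2 := by
    have h4 : (2 : ℝ) ^ ((σ - d * Kd * (e * E)) * n) * (2 ^ (d * Kd * (e * E) * n) * ρ) = 1 := by
      rw [← hρ, ← Real.rpow_add (by norm_num), ← Real.rpow_add (by norm_num)]
      have : (σ - d * Kd * (e * E)) * n + (d * Kd * (e * E) * n + -(σ * n)) = 0 := by ring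
      rw [this, Real.rpow_zero]
    rw [hθK]
    have h5 : 0 < (2 : ℝ) ^ (d * Kd * (e * E) * n) * ρ := by positivity
    have h6 := mul_le_mul_of_nonneg_right c2 h5.le
    rw [h4] at h6
    linarith
  -- probability of the bad classes
  have hcell := cells_pb (F := (l k).T) (fun ω => ucell ρ (X k ω)) ((l k).V ⊓ (l k).T.Z)
    (fun ω => LeafG0 P x k (l k) E e (X k) (Q k) ω ∧ PhG P x k (l k) (2 ^ (η * n)) ω) _ ((2 / ρ) ^ d)
    (θ * (1 / ρ) ^ d) (card_ucell hρ0 hρ1) (fun ω _ => ucell_mem hρ0 _)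
  have hlogρ : Real.logb 2 (1 / ρ) = σ * n := by
    rw [one_div, Real.logb_inv, ← hρ, Real.logb_rpow (by norm_num) (by norm_num)]
    ring
  have hlog0 : Real.logb 2 ((2 / ρ) ^ d) = d * (σ * n + 1) := by
    rw [Real.logb_pow]
    have e1 : 2 / ρ = 2 * (1 / ρ) := by ring
    rw [e1, Real.logb_mul (by norm_num) (by positivity), hlogρ, Real.logb_self_eq_one (by norm_num)]
    ring
  have hlog1 : Real.logb 2 (θ * (1 / ρ) ^ d) = d * (σ * n) - e * E * n := by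
    rw [Real.logb_mul hθ0.ne' (by positivity), Real.logb_pow, hlogρ, hθ, Real.logb_rpow (by norm_num) (by norm_num)]
    ring
  rw [hlog0, hlog1] at hcell
  set pS := (l k).T.pb (fun ω => (LeafG0 P x k (l k) E e (X k) (Q k) ω ∧ PhG P x k (l k) (2 ^ (η * n)) ω) ∧
    ((vals (fun ω => ucell ρ (X k ω)) ((l k).V ⊓ (l k).T.Z) (fun ω => LeafG0 P x k (l k) E e (X k) (Q k) ω ∧
      PhG P x k (l k) (2 ^ (η * n)) ω) ω).card : ℝ) < θ * (1 / ρ) ^ d) with hpS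
  have hpSm0 : 0 ≤ pS := (l k).T.pb_nonneg _
  have hpSm : pS ≤ e + e / 2 := by
    have hle := hfk.trans hcell
    have h2 : pS * (e * E * n) ≤ (1 + d) + e ^ 2 * E * n := by
      have h3 : pS * (d * (σ * n + 1) - (d * (σ * n) - e * E * n)) = pS * (e * E * n) + pS * d := by ring
      rw [h3] at hle
      have h4 : 0 ≤ pS * d := mul_nonneg hpSm0 hmr
      nlinarith
    have h3 : (1 + (d : ℝ)) ≤ e / 2 * (e * E * n) := by
      rw [div_le_iff₀ (by positivity)] at c4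
      nlinarith
    have h4 : pS * (e * E * n) ≤ (e + e / 2) * (e * E * n) := by nlinarith
    exact le_of_mul_le_mul_right h4 (by positivity)
  -- probability of a large form
  have hPh1 : (l k).T.pb (fun ω => ¬ PhG P x k (l k) (2 ^ (η * n)) ω) ≤ e / 2 := by
    have h2 := hAb
    have h3 : (l k).T.pb (fun ω => ¬ PhG P x k (l k) (2 ^ (η * n)) ω) =
        (x k).l.T.pb (fun ω => ¬ phi (S.dl 1 k) ((x k).g ω) (P.v k ((x k).l.p.π ω)) ≤ 2 ^ (η * n)) :=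
      pb_push (l k).p (fun ω => ¬ phi (S.dl 1 k) ((x k).g ω) (P.v k ((x k).l.p.π ω)) ≤ 2 ^ (η * n))
    rw [h3]
    exact h2.trans hη2
  -- union
  have h2 : ∀ ω, (l k).T.μ ω ≠ 0 → ¬ LeafG P x k (l k) E e' (X k) (Q k) ω →
      (¬ LeafG0 P x k (l k) E e (X k) (Q k) ω ∨ ¬ PhG P x k (l k) (2 ^ (η * n)) ω) ∨
      ((LeafG0 P x k (l k) E e (X k) (Q k) ω ∧ PhG P x k (l k) (2 ^ (η * n)) ω) ∧
    ((vals (fun ω => ucell ρ (X k ω)) ((l k).V ⊓ (l k).T.Z) (fun ω => LeafG0 P x k (l k) E e (X k) (Q k) ω ∧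
      PhG P x k (l k) (2 ^ (η * n)) ω) ω).card : ℝ) < θ * (1 / ρ) ^ d) := by
    intro ω hω hnl
    by_contra hcon
    rw [not_or, not_or, not_not, not_not] at hcon
    obtain ⟨⟨hL0, hPω⟩, hSω⟩ := hcon
    apply hnl
    refine ⟨hL0.1, ?_, ?_⟩
    · intro y hy
      have hb := leaf_cube P x k (l k) E e (2 ^ (η * n)) (mul_nonneg (by linarith) hE.le)
        (Real.one_le_rpow (by norm_num) (by positivity)) Kd hKd (X k) (Q k) (hQd k) (hQ k) ((gaq P D).cp k)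
        hAc ρ θ hρ0 hρ1 hθ0 hsm hsm2 ω hω
        (not_lt.mp (fun h => hSω ⟨⟨hL0, hPω⟩, h⟩)) y hy
      refine hb.trans ?_
      apply pow_le_pow_left₀ (by positivity)
      rw [hθK, hnn]
      have h4 : (2 : ℝ) ^ (e' * E * n) =
          2 ^ ((3 * (e * E) - η) * n) * (2 ^ (d * Kd * (e * E) * n) * 2 ^ (η * n)) := by
        rw [← Real.rpow_add (by norm_num), ← Real.rpow_add (by norm_num)]
        congr 1
        rw [he']
        ring
      rw [h4]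
      have h5 : 0 < (2 : ℝ) ^ (d * Kd * (e * E) * n) * 2 ^ (η * n) := by positivity
      have h6 := mul_le_mul_of_nonneg_right c3 h5.le
      refine le_trans (le_of_eq ?_) h6
      ring
    · intro j
      refine (hL0.2 j).trans ?_
      apply pow_le_pow_left₀ (by positivity)
      apply Real.rpow_le_rpow_of_exponent_le (by norm_num)
      rw [hnn]
      have : (1 - e') * (E * n) ≤ (1 - e) * (E * n) :=
        mul_le_mul_of_nonneg_right (by linarith) (by positivity)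
      nlinarith
  refine ((l k).T.pb_mono h2).trans ?_
  have u1 := pb_or (l k).T (fun ω => ¬ LeafG0 P x k (l k) E e (X k) (Q k) ω ∨
    ¬ PhG P x k (l k) (2 ^ (η * n)) ω) (fun ω => (LeafG0 P x k (l k) E e (X k) (Q k) ω ∧
      PhG P x k (l k) (2 ^ (η * n)) ω) ∧ ((vals (fun ω => ucell ρ (X k ω)) ((l k).V ⊓ (l k).T.Z)
        (fun ω => LeafG0 P x k (l k) E e (X k) (Q k) ω ∧ PhG P x k (l k) (2 ^ (η * n)) ω) ω).card : ℝ) <
          θ * (1 / ρ) ^ d)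
  have u2 := pb_or (l k).T (fun ω => ¬ LeafG0 P x k (l k) E e (X k) (Q k) ω)
    (fun ω => ¬ PhG P x k (l k) (2 ^ (η * n)) ω)
  linarith

end

end Pool.Agent.Helper48.DGM
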