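import Pool.Agent.Helper48.DGM.Vec
import Pool.Agent.Helper48.NS.Dpol

/-! THEOREM DEGREE for points of `R ^ M` and leaves of dimension `d`, abstract form. -/

set_option autoImplicit false

namespace Pool.Agent.Helper48.DGM

open Finset Filter Topology Matrix Pool.Agent.Helper69.RK Pool.Agent.Helper31.EC Pool.Agent.Helper40.EL
open Pool.Agent.Helper89.LX Pool.Agent.Helper3.LF Pool.Agent.Helper84.MT Pool.Agent.Helper59.LF
open Pool.Agent.Helper48.NS hiding deg_vec deg_sub degree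
open Pool.Agent.Helper95.LF (PdM)

noncomputable section

variable {S : Sp} {M D d : ℕ} (P : S.VV M)

/-- the leaf condition: the point is in the leaf of the class up to `2 ^ (-(1 - e) E n)` in the gauge of the form,
and the form is at most `2 ^ (2 e E n)` on the whole leaf -/
def LeafG (x : ∀ k, FD (S.F k) (Mon M D)) (k : ℕ) (l : FLab ((Ov x).F k)) (E e : ℝ) (X : l.T.Ω → Fin d → ℝ)
    (Q : l.T.Ω → Mon M D → MvPolynomial (Fin d) ℝ) (ω : l.T.Ω) : Prop :=
  (∀ i, 0 ≤ X ω i ∧ X ω i ≤ 1) ∧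
  (∀ y : Fin d → ℝ, (∀ i, 0 ≤ y i ∧ y i ≤ 1) →
    qf ((x k).g (l.p.π ω)) (evq (Q ω) y) ≤ (2 ^ (e * E * (S.F k).n)) ^ 2) ∧
  ∀ j, qf ((x k).g (l.p.π ω)) (ndq P x k (l.p.π ω) j - evq (Q ω) (X ω)) ≤ (2 ^ (-((1 - e) * E * (S.F k).n))) ^ 2

/-- THEOREM DEGREE -/
theorem degree {pr : ℕ} (hD : 1 ≤ pr) (hcard : Fintype.card (Mon d (d * pr)) < Fintype.card (Mon M D)) {W : ℝ}
    {x : ∀ k, FD (S.F k) (Mon M D)} (hx : Inp P x pr W) (E e : ℝ) (hE : 0 < E) (hE1 : E ≤ W)
    (he0 : 0 ≤ e) (he : ((d * pr + 1 : ℕ) : ℝ) * (pr + 2) * e < 1)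
    (l : ∀ k, FLab ((Ov x).F k)) (hU : UB (fun k => (l k).info / (S.F k).n))
    (hl : ul (fun k => (l k).info / (S.F k).n) ≤ e * E) (Kd : ℕ) (X : ∀ k, (l k).T.Ω → Fin d → ℝ)
    (Q : ∀ k, (l k).T.Ω → Mon M D → MvPolynomial (Fin d) ℝ) (hQd : ∀ k ω a, (Q k ω a).totalDegree ≤ Kd)
    (hQ : ∀ k ω ω', (l k).T.μ ω ≠ 0 → (l k).T.μ ω' ≠ 0 → (l k).V ω ω' → (l k).T.Z ω ω' → Q k ω = Q k ω')
    (hev : ∀ᶠ k in UF, (l k).T.pb (fun ω => ¬ LeafG P x k (l k) E e (X k) (Q k) ω) ≤ e) : False := by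
  classical
  set N := d * pr with hN
  have hNpos : (0 : ℝ) < ((N + 1 : ℕ) : ℝ) := by positivity
  have hDr : (1 : ℝ) ≤ pr := by exact_mod_cast hD
  have he1 : e ≤ 1 := by
    by_contra hcon
    have hcon' := not_le.mp hcon
    have a1 : (1 : ℝ) ≤ ((N + 1 : ℕ) : ℝ) := by
      push_cast
      have : (0 : ℝ) ≤ N := Nat.cast_nonneg N
      linarith
    have a2 : (1 : ℝ) ≤ ((N + 1 : ℕ) : ℝ) * (pr + 2) := by nlinarith
    nlinarith
  set σ : ℝ := E / ((N + 1 : ℕ) : ℝ) with hσ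
  have hσ0 : 0 < σ := div_pos hE hNpos
  -- the side of the cells
  set ρ : ℕ → ℝ := fun k => (2 : ℝ) ^ (-(σ * (S.F k).n)) with hρ
  have hρ0 : ∀ k, 0 < ρ k := fun k => by rw [hρ]; positivity
  have hρ1 : ∀ k, ρ k ≤ 1 := fun k => by
    apply Real.rpow_le_one_of_one_le_of_nonpos (by norm_num)
    have := (S.F k).pos
    have : 0 ≤ σ * (S.F k).n := by positivity
    linarith
  set U : ∀ k, (l k).T.Ω → Fin d → ℤ := fun k ω => ucell (ρ k) (X k ω) with hUd
  set l' : ∀ k, FLab ((Ov x).F k) := fun k => fadd (l k) (Setoid.ker (U k)) with hl'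
  set ctr : ∀ k, (Fin d → ℤ) → Fin d → ℝ := fun k u i => ρ k * (u i : ℝ) with hctr
  set c₀ : ∀ k, (l' k).T.Ω → Mon M D → ℝ := fun k ω => kerv N (ctr k (U k ω)) (Q k ω) with hc₀
  -- information
  have hinfo : ∀ k, (l' k).info ≤ (l k).info + d * (σ * (S.F k).n + 1) := by
    intro k
    refine (fadd_info_le (l k) (Setoid.ker (U k))).trans ?_
    have h2 := e_card (F := (l k).T) (U k) ((l k).V ⊓ (l k).T.Z) _ _ (card_ucell (m := d) (hρ0 k) (hρ1 k))
      (fun ω _ => ucell_mem (hρ0 k) _)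
    have h3 : Real.logb 2 ((2 / ρ k) ^ d) = d * (σ * (S.F k).n + 1) := by
      rw [Real.logb_pow, Real.logb_div (by norm_num) (hρ0 k).ne', Real.logb_self_eq_one (by norm_num)]
      rw [hρ]
      simp only
      rw [Real.logb_rpow (by norm_num) (by norm_num)]
      ring
    rw [h3] at h2
    linarith
  have hn0 : Tendsto (fun k => (d : ℝ) * (σ + 1 / (S.F k).n)) UF (𝓝 (d * (σ + 0))) :=
    ((tendsto_const_nhds).add (S.div_n_tendsto 1)).const_mul _
  have hUB1 : UB (fun k => (d : ℝ) * (σ + 1 / (S.F k).n)) := UB_of_tendsto hn0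
  have hle : ∀ k, (l' k).info / (S.F k).n ≤ (l k).info / (S.F k).n + d * (σ + 1 / (S.F k).n) := by
    intro k
    have hn := (S.F k).pos
    rw [div_le_iff₀ hn]
    refine (hinfo k).trans (le_of_eq ?_)
    field_simp
  have hUB' : UB (fun k => (l' k).info / (S.F k).n) := by
    obtain ⟨C, hC⟩ := hU.add hUB1
    refine UB_of_nonneg_le (C := C) (Eventually.of_forall fun k => ?_) ?_
    · exact div_nonneg (FLab.info_nonneg _) (S.F k).pos.le
    · filter_upwards [hC] with k hk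
      exact (hle k).trans ((le_abs_self _).trans hk)
  have hul : ul (fun k => (l' k).info / (S.F k).n) ≤ e * E + d * σ := by
    have h2 := ul_mono hUB' (hU.add hUB1) (Eventually.of_forall hle)
    rw [ul_add hU hUB1, ul_eq hn0] at h2
    linarith
  have hnO : ∀ k, ((Ov x).F k).n = (S.F k).n := Ov_n x
  -- the cost
  have key := deg_vec P ((1 - e) * E) (mul_nonneg (by linarith) hE.le) (by nlinarith) hx l' (by
      have e1 : (fun k => (l' k).info / ((Ov x).F k).n) = fun k => (l' k).info / (S.F k).n :=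
        funext fun k => by rw [hnO]
      rw [e1]
      exact hUB') c₀ (by
      intro k ω ω' a1 a2 a3 a4
      have b1 : (l k).V ω ω' := a3.1
      have b2 : U k ω = U k ω' := a3.2
      have b3 := hQ k ω ω' a1 a2 b1 a4
      rw [hc₀]
      simp only
      rw [b2, b3]) ((1 - e) * E) e ((1 + Ct d Kd (N + 1)) ^ 2) he1 (by positivity) (by
      filter_upwards [hev] with k hk
      refine le_trans ((l k).T.pb_mono ?_) hk
      intro ω _ hneg hleaf
      apply hneg
      obtain ⟨f1, f2, f3⟩ := hleaf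
      refine ⟨(kerv_spec N hcard _ _).1, fun a ha j => ?_⟩
      set cf : Mon M D → ℝ := a • c₀ k ω with hcf
      have hXi : U k ω = fun i => ⌊X k ω i / ρ k⌋ := by
        rw [hUd]
        simp only [ucell]
        rw [if_pos f1]
      have hc1 : ∀ i, 0 ≤ ctr k (U k ω) i ∧ ctr k (U k ω) i ≤ 1 := by
        intro i
        rw [hctr, hXi]
        simp only
        have b1 := Int.floor_le (X k ω i / ρ k)
        have b2 : 0 ≤ ⌊X k ω i / ρ k⌋ := Int.floor_nonneg.mpr (div_nonneg (f1 i).1 (hρ0 k).le)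
        constructor
        · have : (0 : ℝ) ≤ ⌊X k ω i / ρ k⌋ := by exact_mod_cast b2
          exact mul_nonneg (hρ0 k).le this
        · rw [le_div_iff₀ (hρ0 k)] at b1
          linarith [(f1 i).2]
      have hc2 : ∀ i, |X k ω i - ctr k (U k ω) i| ≤ ρ k := by
        intro i
        rw [hctr, hXi]
        simp only
        have b1 := Int.floor_le (X k ω i / ρ k)
        have b2 := Int.lt_floor_add_one (X k ω i / ρ k)
        rw [le_div_iff₀ (hρ0 k)] at b1
        rw [div_lt_iff₀ (hρ0 k)] at b2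
        rw [abs_le]
        constructor <;> nlinarith
      have hsm := ker_small (A := (x k).g ((l k).p.π ω)) Kd N hcard (ctr k (U k ω)) hc1 (Q k ω) (hQd k ω)
        (2 ^ (e * E * (S.F k).n)) (by positivity) f2 (ρ k) (hρ0 k) (hρ1 k) (X k ω) hc2 a ha
      have hpow : ρ k ^ (N + 1) = 2 ^ (-(E * (S.F k).n)) := by
        rw [hρ]
        simp only
        rw [← Real.rpow_natCast, ← Real.rpow_mul (by norm_num)]
        congr 1
        rw [hσ]
        field_simp
      have hmul : (2 : ℝ) ^ (e * E * (S.F k).n) * 2 ^ (-(E * (S.F k).n)) = 2 ^ (-((1 - e) * E * (S.F k).n)) := by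
        rw [← Real.rpow_add (by norm_num)]
        congr 1
        ring
      rw [hpow, mul_assoc, hmul] at hsm
      have hd := (ha (ndq P x k ((l k).p.π ω) j - evq (Q k ω) (X k ω))).trans (f3 j)
      have hd' := abs_le_of_sq_le_sq hd (by positivity)
      have hsplit : (a • c₀ k ω) ⬝ᵥ ndq P x k ((l k).p.π ω) j =
          (a • c₀ k ω) ⬝ᵥ (ndq P x k ((l k).p.π ω) j - evq (Q k ω) (X k ω)) +
            (a • c₀ k ω) ⬝ᵥ evq (Q k ω) (X k ω) := by
        rw [dotProduct_sub]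
        ring
      have habs : |(a • c₀ k ω) ⬝ᵥ ndq P x k ((l k).p.π ω) j| ≤
          (1 + Ct d Kd (N + 1)) * 2 ^ (-((1 - e) * E * (S.F k).n)) := by
        rw [hsplit]
        refine (abs_add_le _ _).trans ?_
        have hsm' : |(a • c₀ k ω) ⬝ᵥ evq (Q k ω) (X k ω)| ≤
          Ct d Kd (N + 1) * 2 ^ (-((1 - e) * E * (S.F k).n)) := hsm
        linarith
      have hfin : ((a • c₀ k ω) ⬝ᵥ ndq P x k ((l k).p.π ω) j) ^ 2 ≤
          ((1 + Ct d Kd (N + 1)) * 2 ^ (-((1 - e) * E * (S.F k).n))) ^ 2 := by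
        rw [← sq_abs]
        exact pow_le_pow_left₀ (abs_nonneg _) habs 2
      refine hfin.trans (le_of_eq ?_)
      rw [mul_pow, ← Real.rpow_natCast (2 ^ (-((1 - e) * E * (S.F k).n))) 2, ← Real.rpow_mul (by norm_num)]
      congr 2
      push_cast
      ring)
  rw [min_self] at key
  have hulO : ul (fun k => (l' k).info / ((Ov x).F k).n) = ul (fun k => (l' k).info / (S.F k).n) :=
    ul_congr (Eventually.of_forall fun k => by rw [hnO])
  rw [hulO] at key
  have h3 : (1 - e) * ((1 - e) * E) ≤ pr * (e * E + d * σ) :=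
    key.trans (mul_le_mul_of_nonneg_left hul (by linarith))
  have h4 : (pr : ℝ) * (d * σ) = E * (1 - 1 / ((N + 1 : ℕ) : ℝ)) := by
    rw [hσ, hN]
    push_cast
    field_simp
    ring
  have h5 : (pr : ℝ) * (e * E + d * σ) = E * (pr * e + (1 - 1 / ((N + 1 : ℕ) : ℝ))) := by
    rw [mul_add, h4]
    ring
  rw [h5] at h3
  have h6 : (1 - e) * (1 - e) ≤ pr * e + (1 - 1 / ((N + 1 : ℕ) : ℝ)) := by
    have : E * ((1 - e) * (1 - e)) ≤ E * (pr * e + (1 - 1 / ((N + 1 : ℕ) : ℝ))) := by linarith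
    exact le_of_mul_le_mul_left this hE
  have h7 : 1 / ((N + 1 : ℕ) : ℝ) ≤ (pr + 2) * e := by nlinarith
  rw [div_le_iff₀ hNpos] at h7
  nlinarith

end

end Pool.Agent.Helper48.DGM
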