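import Pool.Agent.Helper48.NS.Dsub
import Pool.Agent.Helper84.MT.Def

/-! THEOREM DEGREE for points of `R ^ M`, abstract form: the input is THEOREM COST with price `pr` and depth `W`. -/

set_option autoImplicit false

namespace Pool.Agent.Helper48.DGM

open Finset Filter Topology Matrix Pool.Agent.Helper69.RK Pool.Agent.Helper31.EC Pool.Agent.Helper40.EL
open Pool.Agent.Helper89.LX Pool.Agent.Helper3.LF Pool.Agent.Helper84.MT
open Pool.Agent.Helper48.NS hiding deg_vec deg_sub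
open Pool.Agent.Helper95.LF (PdM)

noncomputable section

/-- THE INPUT: a form below the cap, bounding at the point, for which a label of information `i` over the form cannot
predict a unit combination smaller than `2 ^ (-(pr i) n)` (down to depth `W`) -/
structure Inp {S : Sp} {M D : ℕ} (P : S.VV M) (x : ∀ k, FD (S.F k) (Mon M D)) (pr W : ℝ) : Prop where
  cpd : ∀ᶠ k in UF, ∀ ω, (x k).l.T.μ ω ≠ 0 → Cpd ((gaq P D).cp k) ((x k).g ω)
  bdg : ∀ η : ℝ, 0 < η → ∀ᶠ k in UF, (x k).l.T.pb (fun ω =>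
    ¬ (gaq P D).φ k ((x k).l.p.π ω) ((x k).g ω) ≤ 2 ^ (η * (S.F k).n)) ≤ η
  cost : ∀ E₀ : ℝ, 0 ≤ E₀ → E₀ ≤ W → ∀ y : ∀ k, CL ((Ov x).F k) (Mon M D → ℝ), (∀ᶠ k in UF, (y k).Good (GdC x k)) →
    UB (fun k => (y k).l.info / ((Ov x).F k).n) →
      ul (fun k => (y k).E (fex (gaq P D) x E₀ k)) ≤ pr * ul (fun k => (y k).l.info / ((Ov x).F k).n)

variable {S : Sp} {M D : ℕ} (P : S.VV M)

/-- node number `j` at the point -/
def ndq (x : ∀ k, FD (S.F k) (Mon M D)) (k : ℕ) (ω : ((Ov x).F k).Ω) (j : Fin M → Fin (D + 1)) :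
    Mon M D → ℝ := vv (nodp D (P.v k ((x k).l.p.π ω)) (S.dl 1 k) j)

theorem phi_ndq (x : ∀ k, FD (S.F k) (Mon M D)) (k : ℕ) (ω : ((Ov x).F k).Ω) (c : Mon M D → ℝ) :
    phi (S.dl 1 k) (cc c) (P.v k ((x k).l.p.π ω)) = ∑ j, (c ⬝ᵥ ndq P x k ω j) ^ 2 := by
  unfold phi ndq
  refine Finset.sum_congr rfl fun j _ => ?_
  exact qf_cc _ _

/-- THEOREM COST for labels which carry a nonzero linear form that is small at the point -/
theorem deg_vec {W pr : ℝ} (E₀ : ℝ) (hE0 : 0 ≤ E₀) (hE1 : E₀ ≤ W)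
    {x : ∀ k, FD (S.F k) (Mon M D)} (hx : Inp P x pr W) (l : ∀ k, FLab ((Ov x).F k))
    (hU : UB (fun k => (l k).info / ((Ov x).F k).n)) (c₀ : ∀ k, (l k).T.Ω → Mon M D → ℝ)
    (hm : ∀ k ω ω', (l k).T.μ ω ≠ 0 → (l k).T.μ ω' ≠ 0 → (l k).V ω ω' → (l k).T.Z ω ω' → c₀ k ω = c₀ k ω')
    (b e K : ℝ) (he : e ≤ 1) (hK : 0 ≤ K)
    (hc : ∀ᶠ k in UF, (l k).T.pb (fun ω => ¬ (c₀ k ω ≠ 0 ∧ ∀ a : ℝ,
      (∀ v, ((a • c₀ k ω) ⬝ᵥ v) ^ 2 ≤ qf ((x k).g ((l k).p.π ω)) v) → ∀ j,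
        ((a • c₀ k ω) ⬝ᵥ ndq P x k ((l k).p.π ω) j) ^ 2 ≤ K * 2 ^ (-(2 * b * (S.F k).n)))) ≤ e) :
    (1 - e) * min b E₀ ≤ pr * ul (fun k => (l k).info / ((Ov x).F k).n) := by
  classical
  -- a default coefficient
  set d₀ : Mon M D → ℝ := fun _ => 1 with hd₀
  have hd₀0 : d₀ ≠ 0 := by
    intro h
    have := congrFun h (Classical.arbitrary _)
    norm_num [hd₀] at this
  set c₁ : ∀ k, (l k).T.Ω → Mon M D → ℝ := fun k ω => if c₀ k ω = 0 then d₀ else c₀ k ω with hc₁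
  have hc₁0 : ∀ k ω, c₁ k ω ≠ 0 := by
    intro k ω
    rw [hc₁]
    by_cases h : c₀ k ω = 0
    · simp only [h, if_true]; exact hd₀0
    · simp only [h, if_false]; exact h
  set y : ∀ k, CL ((Ov x).F k) (Mon M D → ℝ) := fun k =>
    { l := l k
      c := fun ω => uco ((x k).g ((l k).p.π ω)) (c₁ k ω) • c₁ k ω
      meas := by
        intro ω ω' a1 a2 a3 a4
        have b1 := (l k).p.supp ω a1
        have b2 := (l k).p.supp ω' a2
        have b3 : ((Ov x).F k).Z ((l k).p.π ω) ((l k).p.π ω') := ((l k).p.hZ ω ω' a1 a2).mp a4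
        have b4 : (x k).l.V ((l k).p.π ω) ((l k).p.π ω') ∧ (x k).l.T.Z ((l k).p.π ω) ((l k).p.π ω') := b3
        have b5 := ((x k).meas _ _ b1 b2 b4.1 b4.2).1
        have b6 := hm k ω ω' a1 a2 a3 a4
        have b7 : c₁ k ω = c₁ k ω' := by
          rw [hc₁]
          simp only [b6]
        rw [b5, b7] } with hy
  have hcpd := hx.cpd
  have hgood : ∀ᶠ k in UF, (y k).Good (GdC x k) := by
    filter_upwards [hcpd] with k hk ω hω
    have h2 := hk _ ((l k).p.supp ω hω)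
    exact uco_spec h2.1 (fun v hv => h2.pd hv) _ (hc₁0 k ω)
  have key := hx.cost E₀ hE0 hE1 y hgood hU
  have hR0 : Tendsto (fun k => Real.logb 2 (nn M D * K + 1) / (2 * (S.F k).n)) UF (𝓝 0) := by
    have := S.div_n_tendsto (Real.logb 2 (nn M D * K + 1) / 2)
    refine this.congr fun k => ?_
    ring
  have hnn1 := nn_one M D
  have hlow : ∀ᶠ k in UF, (min b E₀ - Real.logb 2 (nn M D * K + 1) / (2 * (S.F k).n)) * (1 - e) ≤
      (y k).E (fex (gaq P D) x E₀ k) := by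
    filter_upwards [hc, hcpd] with k hk hcp
    have hn := (S.F k).pos
    set B : (l k).T.Ω → Prop := fun ω => ¬ (c₀ k ω ≠ 0 ∧ ∀ a : ℝ,
      (∀ v, ((a • c₀ k ω) ⬝ᵥ v) ^ 2 ≤ qf ((x k).g ((l k).p.π ω)) v) → ∀ j,
        ((a • c₀ k ω) ⬝ᵥ ndq P x k ((l k).p.π ω) j) ^ 2 ≤ K * 2 ^ (-(2 * b * (S.F k).n))) with hB
    have hκ : 1 ≤ nn M D * K + 1 := by
      have : 0 ≤ nn M D * K := mul_nonneg (by linarith) hK
      linarith
    have hlog : 0 ≤ Real.logb 2 (nn M D * K + 1) / (2 * (S.F k).n) :=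
      div_nonneg (Real.logb_nonneg (by norm_num) hκ) (by linarith)
    by_cases hneg : min b E₀ - Real.logb 2 (nn M D * K + 1) / (2 * (S.F k).n) ≤ 0
    · have e1 : (min b E₀ - Real.logb 2 (nn M D * K + 1) / (2 * (S.F k).n)) * (1 - e) ≤ 0 :=
        mul_nonpos_of_nonpos_of_nonneg hneg (by linarith)
      refine e1.trans ?_
      unfold CL.E
      exact Finset.sum_nonneg fun ω _ => mul_nonneg ((y k).l.T.nn ω) (ex_nonneg hn hE0)
    · have hpos := not_le.mp hneg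
      have h3 := (y k).E_ge (fex (gaq P D) x E₀ k) B
        (min b E₀ - Real.logb 2 (nn M D * K + 1) / (2 * (S.F k).n)) (fun ω c => ex_nonneg hn hE0) (by
          intro ω hω hBω
          rw [hB, not_not] at hBω
          obtain ⟨hc0, hs⟩ := hBω
          have hc1 : c₁ k ω = c₀ k ω := by
            rw [hc₁]
            simp only [hc0, if_false]
          have hcp' := hcp _ ((l k).p.supp ω hω)
          have hu := uco_spec hcp'.1 (fun v hv => hcp'.pd hv) _ (hc₁0 k ω)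
          have hyc : (y k).c ω = uco ((x k).g ((l k).p.π ω)) (c₁ k ω) • c₁ k ω := rfl
          have h5 : ∀ j, (((y k).c ω) ⬝ᵥ ndq P x k ((l k).p.π ω) j) ^ 2 ≤ K * 2 ^ (-(2 * b * (S.F k).n)) := by
            rw [hyc, hc1]
            rw [hc1] at hu
            exact hs _ hu.1
          have h6 : phi (S.dl 1 k) (cc ((y k).c ω)) (P.v k ((x k).l.p.π ((l k).p.π ω))) ≤
              (nn M D * K + 1) * 2 ^ (-(2 * b * (S.F k).n)) := by
            rw [phi_ndq]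
            refine (Finset.sum_le_card_nsmul _ _ _ fun j _ => h5 j).trans ?_
            rw [nsmul_eq_mul, card_nodes]
            have hp : (0 : ℝ) < 2 ^ (-(2 * b * (S.F k).n)) := by positivity
            nlinarith
          have h7 := ex_scale (n := (S.F k).n) (D := E₀) hn hκ h6
          have h8 := ex_ge (n := (S.F k).n) (D := E₀) (b := b) (F := 2 ^ (-(2 * b * (S.F k).n))) hn le_rfl
          show _ ≤ ex (S.F k).n E₀ (phi (S.dl 1 k) (cc ((y k).c ω)) (P.v k ((x k).l.p.π ((l k).p.π ω))))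
          linarith)
      refine le_trans ?_ h3
      apply mul_le_mul_of_nonneg_left _ hpos.le
      have : (y k).l.T.pb B ≤ e := hk
      linarith
  have hUE : UB (fun k => (y k).E (fex (gaq P D) x E₀ k)) := by
    refine UB_of_nonneg_le (C := E₀) (Eventually.of_forall fun k => ?_) (Eventually.of_forall fun k => ?_)
    · have hn := (S.F k).pos
      unfold CL.E
      exact Finset.sum_nonneg fun ω _ => mul_nonneg ((y k).l.T.nn ω) (ex_nonneg hn hE0)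
    · have hn := (S.F k).pos
      unfold CL.E
      calc ∑ ω, (y k).l.T.μ ω * fex (gaq P D) x E₀ k ((y k).l.p.π ω) ((y k).c ω)
          ≤ ∑ ω, (y k).l.T.μ ω * E₀ :=
            Finset.sum_le_sum fun ω _ => mul_le_mul_of_nonneg_left (ex_le hn) ((y k).l.T.nn ω)
        _ = E₀ := by rw [← Finset.sum_mul, (y k).T_mass, one_mul]
  have hlim : Tendsto (fun k => (min b E₀ - Real.logb 2 (nn M D * K + 1) / (2 * (S.F k).n)) * (1 - e)) UF
      (𝓝 ((min b E₀ - 0) * (1 - e))) := (tendsto_const_nhds.sub hR0).mul_const _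
  have h4 := le_of_tendsto_of_tendsto hlim (ul_tendsto hUE) hlow
  rw [sub_zero] at h4
  calc (1 - e) * min b E₀ = min b E₀ * (1 - e) := mul_comm _ _
    _ ≤ _ := h4
    _ ≤ _ := key

theorem deg_sub {W₀ pr : ℝ} (E₀ : ℝ) (hE0 : 0 ≤ E₀) (hE1 : E₀ ≤ W₀)
    {x : ∀ k, FD (S.F k) (Mon M D)} (hx : Inp P x pr W₀) (l : ∀ k, FLab ((Ov x).F k))
    (hU : UB (fun k => (l k).info / ((Ov x).F k).n)) (W : ∀ k, (l k).T.Ω → Submodule ℝ (Mon M D → ℝ))
    (hm : ∀ k ω ω', (l k).T.μ ω ≠ 0 → (l k).T.μ ω' ≠ 0 → (l k).V ω ω' → (l k).T.Z ω ω' → W k ω = W k ω')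
    (b e : ℝ) (he : e ≤ 1)
    (hc : ∀ᶠ k in UF, (l k).T.pb (fun ω => ¬ (W k ω ≠ ⊤ ∧ ∀ j, ∃ u ∈ W k ω,
      qf ((x k).g ((l k).p.π ω)) (ndq P x k ((l k).p.π ω) j - u) ≤ 2 ^ (-(2 * b * (S.F k).n)))) ≤ e) :
    (1 - e) * min b E₀ ≤ pr * ul (fun k => (l k).info / ((Ov x).F k).n) := by
  refine deg_vec P E₀ hE0 hE1 hx l hU (fun k ω => vanf (W k ω)) (by
    intro k ω ω' a1 a2 a3 a4
    rw [hm k ω ω' a1 a2 a3 a4]) b e 1 he zero_le_one ?_
  filter_upwards [hc] with k hk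
  refine le_trans ((l k).T.pb_mono ?_) hk
  intro ω _ hneg hgood
  apply hneg
  obtain ⟨f1, f2⟩ := hgood
  obtain ⟨v1, v2⟩ := vanf_spec (W k ω) f1
  refine ⟨v1, fun a ha j => ?_⟩
  obtain ⟨u, hu, hu2⟩ := f2 j
  have h2 := ha (ndq P x k ((l k).p.π ω) j - u)
  have h3 : (a • vanf (W k ω)) ⬝ᵥ (ndq P x k ((l k).p.π ω) j - u) =
      (a • vanf (W k ω)) ⬝ᵥ ndq P x k ((l k).p.π ω) j := by
    rw [dotProduct_sub]
    have h4 : (a • vanf (W k ω)) ⬝ᵥ u = 0 := by rw [smul_dotProduct, v2 u hu, smul_zero]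
    rw [h4, sub_zero]
  rw [h3] at h2
  rw [one_mul]
  exact h2.trans hu2

end

end Pool.Agent.Helper48.DGM
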